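import Pool.Agent.Y520.AF.Final
import Pool.Agent.Y429.AF.INJ
import Pool.Agent.Y429.AF.OO
import Pool.Agent.Y302.AF.Coord
import Pool.Agent.Y302.AF.Trl
import Pool.Agent.Y302.AF.Tru
import Pool.Agent.Y74.AF.Deg

/-!
# Complete flat Moebius strips of every width have algebraic isometric embeddings in `ℝ⁴`

Let `r(x) = (sin⁶ x, sin x cos x, sin x cos x cos 2x)`, a simple closed curve (`x` modulo `π`) with
one inflection, and let `r(x) + s D(x)` be its rectifying developable, `s` the distance from the
curve in the developed plane: a flat Moebius strip in `ℝ³`.  For small `s₀` the surface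
`(1 / (s₀² - s²), r(x) + s D(x))`, `|s| < s₀`, is isometric to the complete standard Moebius strip
of some width, it is embedded, and its points are algebraic functions of `s` and `tan x`.
-/

set_option autoImplicit false

noncomputable section

open Filter Topology
open scoped ContDiff

namespace Pool.Agent.Results.MP_d21f85_gt.AlgebraicEmbedding

/-- A `C^∞` isometric embedding in `ℝ⁴` of the complete standard Moebius strip `M_a`, that is, of
the plane with the coordinates `(t, v)` and the metric `dt² + dv²` modulo the group generated by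
the glide reflection `(t, v) ↦ (-t, v + a)` (the strip `ℝ × [0, a]` with `(t, 0)` and `(-t, a)`
identified): a `C^∞` map of the plane, invariant under the glide reflection, injective up to its
powers, with the induced metric `dt² + dv²`. -/
structure IsometricEmbedding (a : ℝ) (F : ℝ × ℝ → EuclideanSpace ℝ (Fin 4)) : Prop where
  smooth : ContDiff ℝ ∞ F
  glide : ∀ t v, F (-t, v + a) = F (t, v)
  injective : ∀ p q, F p = F q → ∃ n : ℤ, q = ((-1) ^ n * p.1, p.2 + n * a)
  isometric : ∀ p w : ℝ × ℝ, ‖fderiv ℝ F p w‖ ^ 2 = w.1 ^ 2 + w.2 ^ 2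

/-- the common zero set in `ℝ⁴` of finitely many polynomials -/
def zeroSet (T : Finset (MvPolynomial (Fin 4) ℝ)) : Set (Fin 4 → ℝ) :=
  {y | ∀ P ∈ T, MvPolynomial.eval y P = 0}

/-- the ideal of the polynomials which vanish on a set -/
def vanishingIdeal (X : Set (Fin 4 → ℝ)) : Ideal (MvPolynomial (Fin 4) ℝ) where
  carrier := {P | ∀ y ∈ X, MvPolynomial.eval y P = 0}
  add_mem' := fun ha hb y hy => by rw [map_add, ha y hy, hb y hy, add_zero]
  zero_mem' := fun y _ => map_zero _
  smul_mem' := fun c P hP y hy => by rw [smul_eq_mul, map_mul, hP y hy, mul_zero]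

/-- the dimension of a real algebraic set: the Krull dimension of its coordinate ring -/
def dimension (Z : Set (Fin 4 → ℝ)) : WithBot ℕ∞ :=
  ringKrullDim (MvPolynomial (Fin 4) ℝ ⧸ vanishingIdeal Z)

/-- the restriction of polynomials to a set -/
def restriction (Z : Set (Fin 4 → ℝ)) : MvPolynomial (Fin 4) ℝ →ₗ[ℝ] (Z → ℝ) where
  toFun P y := MvPolynomial.eval y.1 P
  map_add' P Q := by funext y; exact map_add _ P Q
  map_smul' c P := by funext y; simp [MvPolynomial.smul_eval]

/-- the Hilbert function of a real algebraic set: the dimension of the space of the restrictions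
to it of the polynomials of degree at most `m` -/
def hilbert (Z : Set (Fin 4 → ℝ)) (m : ℕ) : ℕ :=
  Module.finrank ℝ ((MvPolynomial.restrictTotalDegree (Fin 4) ℝ m).map (restriction Z))

/-- `d` is the order (the degree of the projective closure) of the two-dimensional real algebraic
set `Z`: the Hilbert function is `d m² / 2 + o(m²)` -/
def HasOrder (Z : Set (Fin 4 → ℝ)) (d : ℝ) : Prop :=
  Tendsto (fun m : ℕ => 2 * (hilbert Z m : ℝ) / (m : ℝ) ^ 2) atTop (𝓝 d)

/-- **For every `a > 0` there is an algebraic isometric embedding of the complete standard Moebius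
strip `M_a` in `ℝ⁴`**, of order at most `252`. -/
theorem result (a : ℝ) (ha : 0 < a) : ∃ F : ℝ × ℝ → EuclideanSpace ℝ (Fin 4),
    IsometricEmbedding a F ∧ ∃ T : Finset (MvPolynomial (Fin 4) ℝ),
      -- the image is contained in the real algebraic set `zeroSet T` of dimension two
      (∀ p, (F p).ofLp ∈ zeroSet T) ∧ dimension (zeroSet T) = 2 ∧
      -- which is its Zariski closure
      (∀ P, (∀ p, MvPolynomial.eval (F p).ofLp P = 0) → ∀ y ∈ zeroSet T,
        MvPolynomial.eval y P = 0) ∧
      -- and whose order is at most `252`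
      (∀ m : ℕ, hilbert (zeroSet T) m ≤ (3 * m + 1) * (42 * m + 1)) ∧
      ∀ d : ℝ, HasOrder (zeroSet T) d → d ≤ 252 := by
  have hPR := Pool.Agent.Y302.AF.t_PRIME Pool.Agent.Y429.AF.t_OO Pool.Agent.Y429.AF.t_ANA
  have hTU := Pool.Agent.Y302.AF.t_TRU Pool.Agent.Y429.AF.t_OO Pool.Agent.Y429.AF.t_ANA
  obtain ⟨F, hF, T, h1, h2, h3, h4⟩ := Pool.Agent.Y520.AF.final Pool.Agent.Y429.AF.t_INJ
    Pool.Agent.Y302.AF.t_COORD hPR hTU (Pool.Agent.Y302.AF.t_TRL Pool.Agent.Y429.AF.t_ANA)
    Pool.Agent.Y74.AF.t_DEG ha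
  refine ⟨F, ⟨hF.smooth, hF.glide, hF.injective, hF.isometric⟩, T, h1, h3, ?_, h4, ?_⟩
  · intro P hP y hy
    have h5 : P ∈ Pool.Agent.Y520.AF.vanI (Set.range fun p => (F p).ofLp) := by
      rintro _ ⟨p, rfl⟩
      exact hP p
    rw [← h2] at h5
    exact h5 y hy
  · intro d hd
    have hlim : Tendsto (fun m : ℕ => 252 + 90 / (m : ℝ) + 2 / (m : ℝ) ^ 2) atTop
        (𝓝 (252 + 0 + 0)) := by
      have a1 : Tendsto (fun m : ℕ => 90 / (m : ℝ)) atTop (𝓝 0) :=
        tendsto_const_div_atTop_nhds_zero_nat 90
      have a2 : Tendsto (fun m : ℕ => 2 / (m : ℝ) ^ 2) atTop (𝓝 0) := by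
        have := (tendsto_pow_atTop (two_ne_zero)).comp (tendsto_natCast_atTop_atTop (R := ℝ))
        exact Tendsto.const_div_atTop this 2
      exact (tendsto_const_nhds.add a1).add a2
    have hle : d ≤ 252 + 0 + 0 := by
      refine le_of_tendsto_of_tendsto hd hlim ?_
      filter_upwards [eventually_gt_atTop 0] with m hm
      have hm' : (0 : ℝ) < m := by exact_mod_cast hm
      have h5 : (hilbert (zeroSet T) m : ℝ) ≤ (3 * m + 1) * (42 * m + 1) := by
        exact_mod_cast h4 m
      have h6 : 252 + 90 / (m : ℝ) + 2 / (m : ℝ) ^ 2 =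
          2 * ((3 * m + 1) * (42 * m + 1)) / (m : ℝ) ^ 2 := by
        field_simp
        ring
      rw [h6]
      gcongr
    linarith

end Pool.Agent.Results.MP_d21f85_gt.AlgebraicEmbedding
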